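import Pool.Agent.Work.MP_e9e200_al.HT.Final
import Pool.Agent.Work.MP_e9e200_al.Bd.B14
import Pool.Agent.Work.MP_e9e200_al.Bd.B22
import Pool.Agent.Work.MP_e9e200_al.Bd.B30
import Pool.Agent.Work.MP_e9e200_al.Bd.B29

/-!
# Project TL: assembly of all items
-/

set_option autoImplicit false

namespace Pool.Agent.Work.MP_e9e200_al.TL

theorem A_BB : StBB := I_BB I_INS
theorem A_AC : StAC := I_AC A_BB I_CN I_GR
theorem A_AL : StAL := I_AL A_BB I_CN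
theorem A_BE : StBE := I_BE A_BB
theorem A_ESS : StESS := I_ESS A_AL A_BE A_BB LC.I_HT
theorem A_EQ : StEQ := I_EQ I_INS I_GL
theorem A_CF : StCF := I_CF I_INS I_GL
theorem A_LAR : StLAR := I_LAR O3.I_SK
theorem A_CPL : StCPL := I_CPL O3.I_FIN (O3.I_FSC O3.I_SK)
theorem A_SKL : StSKL :=
  I_SKL (O3.I_CAP O3.I_PSH O3.I_FIN (O3.I_FSC O3.I_SK) O3.I_SK) O3.I_SK
theorem A_NB : StNB := I_NB O3.I_FIN O3.I_SK
theorem A_LEV : StLEV := I_LEV A_SKL A_LAR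
theorem A_BDD : StBDD := I_BDD A_CPL A_LAR
theorem A_ASB : StASB := I_ASB A_CF I_LEB I_GR A_AC
theorem A_TOP : StTOP := I_TOP A_SKL A_LAR A_EQ A_NB A_LEV A_BDD A_ASB
theorem A_PRL : StPRL := I_PRL A_TOP A_ESS LZ.A_TOP LZ.A_CHU HT.A_PRS
theorem A_LOW : StLOW := I_LOW A_PRL HT.A_LOW1

end Pool.Agent.Work.MP_e9e200_al.TL
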